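import Mathlib

/-!
# The transcendence degree of a finitely generated domain is at most its Krull dimension
-/

set_option autoImplicit false

namespace Pool.Agent.Helper3.LF

lemma lift_chain {A S : Type*} [CommRing A] [CommRing S] [Algebra A S] [Algebra.IsIntegral A S]
    (hinj : Function.Injective (algebraMap A S)) : ∀ (n : ℕ) (l : LTSeries (PrimeSpectrum A)),
      l.length = n → ∃ l' : LTSeries (PrimeSpectrum S), l'.length = l.length ∧
        l'.last.asIdeal.comap (algebraMap A S) = l.last.asIdeal := by
  intro n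
  induction n with
  | zero =>
    intro l hl
    obtain ⟨Q, -, hQ, hQc⟩ := Ideal.exists_ideal_over_prime_of_isIntegral l.last.asIdeal (⊥ : Ideal S)
      (by
        intro x hx
        have hx' : algebraMap A S x = 0 := hx
        have : x = 0 := hinj (by rw [hx', map_zero])
        rw [this]; exact Ideal.zero_mem _)
    refine ⟨RelSeries.singleton _ ⟨Q, hQ⟩, ?_, ?_⟩
    · rw [RelSeries.singleton_length, hl]
    · exact hQc
  | succ n ih =>
    intro l hl
    obtain ⟨l', h1, h2⟩ := ih l.eraseLast (by rw [RelSeries.eraseLast_length, hl]; rfl)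
    have hlt : l.eraseLast.last < l.last := l.eraseLast_last_rel_last (by omega)
    obtain ⟨Q, hQle, hQ, hQc⟩ := Ideal.exists_ideal_over_prime_of_isIntegral l.last.asIdeal
      l'.last.asIdeal (by rw [h2]; exact hlt.le)
    have hlt' : l'.last < (⟨Q, hQ⟩ : PrimeSpectrum S) := by
      refine lt_of_le_of_ne hQle ?_
      intro h
      have h3 : l'.last.asIdeal = Q := congrArg PrimeSpectrum.asIdeal h
      rw [h3, hQc] at h2
      exact hlt.ne' (PrimeSpectrum.ext h2)
    refine ⟨l'.snoc ⟨Q, hQ⟩ hlt', ?_, ?_⟩
    · rw [RelSeries.snoc_length, h1, RelSeries.eraseLast_length, hl]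
      rfl
    · rw [RelSeries.last_snoc]
      exact hQc

lemma dim_le {A S : Type*} [CommRing A] [CommRing S] [Algebra A S] [Algebra.IsIntegral A S]
    (hinj : Function.Injective (algebraMap A S)) : ringKrullDim A ≤ ringKrullDim S := by
  refine iSup_le fun l => ?_
  obtain ⟨l', h1, -⟩ := lift_chain hinj _ l rfl
  rw [← h1]
  exact Order.LTSeries.length_le_krullDim l'

/-- The transcendence degree of a finitely generated domain is at most its Krull dimension. -/
theorem trdeg_le {R : Type} [CommRing R] [IsDomain R] [Algebra ℂ R]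
    (hfg : Algebra.FiniteType ℂ R) {N : ℕ} (hdim : ringKrullDim R ≤ N) :
    ∃ d : ℕ, d ≤ N ∧ Algebra.trdeg ℂ R = d := by
  obtain ⟨s, g, hg, hint⟩ := exists_integral_inj_algHom_of_fg ℂ R
  refine ⟨s, ?_, ?_⟩
  · let := g.toRingHom.toAlgebra
    have h1 : Algebra.IsIntegral (MvPolynomial (Fin s) ℂ) R := ⟨fun x => hint x⟩
    have h2 : ringKrullDim (MvPolynomial (Fin s) ℂ) ≤ ringKrullDim R := dim_le hg
    rw [MvPolynomial.ringKrullDim_of_isNoetherianRing, ringKrullDim_eq_zero_of_field, zero_add,
      Nat.card_fin] at h2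
    have h3 : ((s : ℕ) : WithBot ℕ∞) ≤ ((N : ℕ) : WithBot ℕ∞) := h2.trans hdim
    exact_mod_cast h3
  · have hind : AlgebraicIndependent ℂ (fun i : Fin s => g (MvPolynomial.X i)) := by
      rw [AlgebraicIndependent]
      have : MvPolynomial.aeval (fun i : Fin s => g (MvPolynomial.X i)) = g := by
        ext i
        simp
      rw [this]
      exact hg
    have hbas : IsTranscendenceBasis ℂ (fun i : Fin s => g (MvPolynomial.X i)) := by
      rw [hind.isTranscendenceBasis_iff_isAlgebraic]
      have hr : g.range = Algebra.adjoin ℂ (Set.range fun i : Fin s => g (MvPolynomial.X i)) := by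
        rw [← Algebra.map_top, ← MvPolynomial.adjoin_range_X, AlgHom.map_adjoin]
        congr 1
        rw [← Set.range_comp]
        rfl
      rw [← hr]
      refine ⟨fun x => ?_⟩
      have hx := hint x
      obtain ⟨P, hP, hPx⟩ := hx
      have : IsIntegral g.range x := by
        refine ⟨P.map (g.rangeRestrict : MvPolynomial (Fin s) ℂ →+* g.range), hP.map _, ?_⟩
        rw [Polynomial.eval₂_map]
        exact hPx
      exact this.isAlgebraic
    have := hbas.lift_cardinalMk_eq_trdeg
    rw [← Cardinal.lift_id (Algebra.trdeg ℂ R)]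
    simpa using this.symm

end Pool.Agent.Helper3.LF
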