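import Pool.Agent.Helper17.CE.F1
import Pool.Agent.Helper3.LF.Trdeg

/-!
# F2: a point over which `dim R` independent elements are algebraic is generic
-/

set_option autoImplicit false
set_option linter.unusedSectionVars false

open Polynomial Finset DirectSum

namespace Pool.Agent.Helper3.LF

/-- F2. A point over which `dim R` independent elements are algebraic is generic. -/
theorem inj_of_indep {R : Type} [CommRing R] [IsDomain R] [Algebra ℂ R]
    (hfg : Algebra.FiniteType ℂ R) {N : ℕ} (hdim : ringKrullDim R ≤ N) {K : Type} [Field K]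
    [Algebra ℂ K] (y : R →ₐ[ℂ] K) (x : Fin N → K) (hx : AlgebraicIndependent ℂ x)
    (halg : ∀ i, IsAlgebraic (IntermediateField.adjoin ℂ (Set.range y)) (x i)) :
    Function.Injective y := by
  obtain ⟨d, hd, htr⟩ := trdeg_le hfg hdim
  exact Pool.Agent.Helper17.CE.inj_of_indep' htr y (fun i => x (Fin.castLE hd i))
    (hx.comp _ (Fin.castLE_injective hd)) (fun i => halg _)

end Pool.Agent.Helper3.LF
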